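import Pool.Agent.Q317.ST.Ab
import Pool.Agent.Q317.ST.Emb2

/-!
# Stark's conjecture for abelian extensions and base fields with few real places

`Ω` is an algebraic closure of `ℚ`, and number fields are the finite extensions of `ℚ` in `Ω`.
-/

set_option autoImplicit false

namespace Pool.Agent.Results.MP_d9bae3_nt.FewRealPlaces

open IntermediateField Pool.Agent.Q317.ST

attribute [-instance] DivisionRing.toRatAlgebra

/-- The number field `K` has at most `ε [K : ℚ]` embeddings in `ℝ`, and at most `ε [K : ℚ]`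
embeddings in `ℚ_p` for each prime `p ≤ n`. -/
def FewEmbeddings {Ω : Type} [Field Ω] [Algebra ℚ Ω] (ε : ℝ) (n : ℕ)
    (K : IntermediateField ℚ Ω) : Prop :=
  FiniteDimensional ℚ K ∧ (Nat.card (K →+* ℝ) : ℝ) ≤ ε * Module.finrank ℚ K ∧
    ∀ (p : ℕ) [Fact p.Prime], p ≤ n → (Nat.card (K →+* ℚ_[p]) : ℝ) ≤ ε * Module.finrank ℚ K

theorem result (Ω : Type) [Field Ω] [Algebra ℚ Ω] [IsAlgClosure ℚ Ω] (N : Numbers Ω) :
    (∀ (K : IntermediateField ℚ Ω) (ℓ : ℕ) (ζ α : Ω), ℓ.Prime → IsPrimitiveRoot ζ ℓ → α ^ ℓ ∈ K →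
      (∀ b ∈ K, b ^ ℓ ≠ α ^ ℓ) → N.AbelianFor (K ⊔ ℚ⟮ζ⟯) → N.AbelianFor (K ⊔ ℚ⟮α⟯) →
        N.AbelianFor K) ∧
    (∀ (ε : ℝ) (n : ℕ), 0 < ε → (∀ K : IntermediateField ℚ Ω, FewEmbeddings ε n K →
      N.AbelianFor K) → ∀ K : IntermediateField ℚ Ω, N.AbelianFor K) := by
  constructor
  · intro K ℓ ζ α hℓ hζ hα hn h1 h2
    have : Fact ℓ.Prime := ⟨hℓ⟩
    exact Numbers.AbelianFor.descent hζ hα hn h2 h1
  · intro ε n hε h K κ hab
    have hL : FiniteDimensional ℚ (N.top κ) := hab.1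
    have hK : FiniteDimensional ℚ K := FiniteDimensional.of_injective
      (inclusion hab.2.1).toLinearMap (inclusion_injective hab.2.1)
    suffices h' : N.AbelianFor K from h' κ hab
    obtain ⟨ℓ, hle, hℓ⟩ := Nat.exists_infinite_primes (n + Module.finrank ℚ K + ⌈1 / ε⌉₊ + 3)
    have hKℓ : Module.finrank ℚ K < ℓ := by omega
    have : Fact ℓ.Prime := ⟨hℓ⟩
    have hodd : Odd ℓ := hℓ.odd_of_ne_two (by omega)
    have hcl : IsAlgClosed Ω := (inferInstance : IsAlgClosure ℚ Ω).isAlgClosed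
    have hch : CharZero Ω := charZero_of_injective_algebraMap (algebraMap ℚ Ω).injective
    have : NeZero ℓ := ⟨hℓ.ne_zero⟩
    obtain ⟨ζ, hζ⟩ := HasEnoughRootsOfUnity.exists_primitiveRoot Ω ℓ
    obtain ⟨α, hα⟩ := IsAlgClosed.exists_pow_nat_eq (algebraMap ℚ Ω 2) hℓ.pos
    have ha : ∀ b : ℚ, b ^ ℓ ≠ 2 := by
      intro b hb
      have h1 : padicValRat 2 (b ^ ℓ) = 1 := by
        rw [hb]
        have := padicValRat.self (p := 2) (by norm_num)
        exact_mod_cast this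
      rw [padicValRat.pow] at h1
      have h2 : (ℓ : ℤ) ∣ 1 := ⟨_, h1.symm⟩
      have h3 : ℓ ∣ 1 := by exact_mod_cast h2
      exact hℓ.one_lt.ne' (Nat.dvd_one.1 h3)
    have hAlg := (inferInstance : IsAlgClosure ℚ Ω).isAlgebraic
    have i1 : FiniteDimensional ℚ ℚ⟮α⟯ :=
      adjoin.finiteDimensional (hAlg.isAlgebraic α).isIntegral
    have i2 : FiniteDimensional ℚ ℚ⟮ζ⟯ :=
      adjoin.finiteDimensional (hAlg.isAlgebraic ζ).isIntegral
    have hεℓ : 1 ≤ ε * ℓ := by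
      have h1 : 1 / ε ≤ ℓ := (Nat.le_ceil _).trans (by exact_mod_cast (by omega :
        ⌈1 / ε⌉₊ ≤ ℓ))
      rwa [div_le_iff₀ hε, mul_comm] at h1
    have hbig := mul_finrank_le (K := K) hℓ hKℓ hα ha
    have hcard : ∀ (F : Type) [Field F], OnlyOne F ℓ →
        (Nat.card (↥(K ⊔ ℚ⟮α⟯) →+* F) : ℝ) ≤ ε * Module.finrank ℚ ↥(K ⊔ ℚ⟮α⟯) := by
      intro F _ hF
      have h1 : (Nat.card (↥(K ⊔ ℚ⟮α⟯) →+* F) : ℝ) ≤ Module.finrank ℚ K := by
        exact_mod_cast card_hom_le hF two_ne_zero hα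
      have h2 : (ℓ : ℝ) * Module.finrank ℚ K ≤ Module.finrank ℚ ↥(K ⊔ ℚ⟮α⟯) := by
        exact_mod_cast hbig
      have h3 : (0 : ℝ) ≤ Module.finrank ℚ K := Nat.cast_nonneg _
      nlinarith
    have hcard2 : ∀ (F : Type) [Field F], OnlyOne F ℓ →
        (Nat.card (↥(K ⊔ ℚ⟮ζ⟯) →+* F) : ℝ) ≤ ε * Module.finrank ℚ ↥(K ⊔ ℚ⟮ζ⟯) := by
      intro F _ hF
      rw [card_hom_zeta hF hℓ.one_lt hζ, Nat.cast_zero]
      positivity
    refine Numbers.AbelianFor.descent hζ (α := α) ?_ ?_ ?_ ?_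
    · rw [hα]
      exact K.algebraMap_mem 2
    · rw [hα]
      exact not_pow_of_finrank hℓ hKℓ ha
    · refine h _ ⟨inferInstance, hcard _ (onlyOne_real hodd), ?_⟩
      intro p hp hpn
      exact hcard _ (onlyOne_padic hℓ (by omega))
    · refine h _ ⟨inferInstance, hcard2 _ (onlyOne_real hodd), ?_⟩
      intro p hp hpn
      exact hcard2 _ (onlyOne_padic hℓ (by omega))

end Pool.Agent.Results.MP_d9bae3_nt.FewRealPlaces
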