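import Pool.Agent.Q285.EQ.Basic

/-!
# Stark's rational conjecture of order `r` and exponentials of smoothed sums of Frobenius elements

`F` a number field, `A` the Galois group of the abelian extension (written additively), `S` the finite places in Stark's set,
`φ v ∈ A` the Frobenius elements of the places outside `S`, `Tm` the finite set of the auxiliary places (outside `S`). Let `L ψ` be the
`S`-truncated L-function of the character `ψ`, `modif ψ s * L ψ s` its `Tm`-modification and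
`c ψ = lim_{s → 0} s^{-r} modif ψ s * L ψ s`. The `r`-th derivative `θ = r! ∑_ψ c ψ e_{ψ̄}` in `ℂ[A]` of the Stickelberger element at
`0` is the limit, with error `O(1/T)`, of the elements

`X(T) = r! ∏_{v ∈ Tm} (1 - Nv [-φ v]) · T^r e^{-rΛ} exp(∑_{v ∉ S, n ≥ 1} (1/n) e^{iγ n log Nv/T}/Γ(1 + n log Nv/T) [-n φ v])`.

Let `ℂ[A]` act linearly on a finite-dimensional space `V` (for instance `ℂ ⋀^r X_{S_H}`), `N` a subgroup of `V` generated by
`x₁, ..., x_g` (the image of `⋀^r X_{S_H}`) and `M` a discrete subgroup (the image under `λ` of `⋀^r U_{S,T}`). Stark's inclusion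
`θ · ℚN ⊆ ℚM` holds if and only if there is a `D ≥ 1` such that the distances of the `g` vectors `D X(T_i) x_j` from `M` tend to zero
along one sequence `T_i → ∞`.
-/

set_option autoImplicit false

namespace Pool.Agent.Results.MP_d9bae3_nt.LimitOfFrobeniusExponentials

open Filter Topology Asymptotics NumberField IsDedekindDomain Pool.Agent.Q45.ML

section

variable {F : Type} [Field F] [NumberField F] {S : Finset (HeightOneSpectrum (𝓞 F))}
  {A : Type} [AddCommGroup A]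

/-- The finite places of `F` outside `S`. -/
abbrev Pl (F : Type) [Field F] [NumberField F] (S : Finset (HeightOneSpectrum (𝓞 F))) : Type :=
  {v : HeightOneSpectrum (𝓞 F) // v ∉ S}

/-- The number of elements of the residue field. -/
noncomputable def norm (v : Pl F S) : ℝ := Ideal.absNorm v.1.asIdeal

/-- The weight `(1/n) e^{iγ n log Nv/T} / Γ(1 + n log Nv/T)` of the pair `(v, n)`, `n = x.2 + 1`. -/
noncomputable def weight (γ T : ℝ) (x : Pl F S × ℕ) : ℂ :=
  1 / (x.2 + 1) * (Complex.exp ((γ * ((x.2 + 1) * Real.log (norm x.1) / T) : ℝ) * Complex.I) /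
    (Real.Gamma (1 + (x.2 + 1) * Real.log (norm x.1) / T) : ℂ))

/-- The coefficient at `a` of the group ring element `∑_{v, n} weight(v, n) [n φ v]`. -/
noncomputable def coef (φ : Pl F S → A) (γ T : ℝ) (a : A) : ℂ :=
  ∑' x : {x : Pl F S × ℕ // (x.2 + 1) • φ x.1 = a}, weight γ T (x : Pl F S × ℕ)

/-- The constant `Λ(γ) = ∫_0^∞ (e^{-t} - e^{iγt}/Γ(1+t)) dt/t`. -/
noncomputable def Lam (γ : ℝ) : ℂ := Pool.Agent.W187.UR.Lam γ

/-- The coefficient at `a` of `∑_ψ c ψ e_{ψ̄}`, where `e_ψ = (1/|A|) ∑_b ψ(b) [-b]`. -/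
noncomputable def element [Fintype A] (c : AddChar A ℂ → ℂ) (a : A) : ℂ :=
  1 / Fintype.card A * ∑ ψ : AddChar A ℂ, c ψ * ψ a

/-- The modification at `Tm` of the L-function of `ψ`, at the point `s`: `∏_{v ∈ Tm} (1 - ψ(v) Nv^{1-s})`. -/
noncomputable def modif (φ : Pl F S → A) (Tm : Finset (Pl F S)) (ψ : AddChar A ℂ) (s : ℂ) : ℂ :=
  ∏ v ∈ Tm, (1 - ψ (φ v) * (norm v : ℂ) ^ (1 - s))

/-- The coefficient at `a` of `X(T)`: the element of `ℂ[A]` whose value at the character `ψ̄` is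
`r! ∏_{v ∈ Tm} (1 - ψ(v) Nv) · T^r e^{-rΛ} exp(∑_b coef b ψ(b))`. -/
noncomputable def X [Fintype A] (φ : Pl F S → A) (Tm : Finset (Pl F S)) (r : ℕ) (γ T : ℝ) : A → ℂ :=
  (r.factorial : ℂ) • element fun ψ => (∏ v ∈ Tm, (1 - ψ (φ v) * (norm v : ℂ))) *
    ((T : ℂ) ^ r * Complex.exp (-(r * Lam γ)) * Complex.exp (∑ b, coef φ γ T b * ψ b))

/-- `ℚM`: the elements of `V` with a positive integer multiple in `M`. -/
def rat {V : Type} [AddCommGroup V] (M : AddSubgroup V) : Set V := {v | ∃ n : ℕ, 0 < n ∧ n • v ∈ M}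

theorem weight_eq (γ T : ℝ) (x : Pl F S × ℕ) :
    weight γ T x = Pool.Agent.Q285.EQ.ker (fun v : Pl F S => norm v) 0 γ T x := by
  unfold weight Pool.Agent.Q285.EQ.ker
  simp

theorem coef_eq (φ : Pl F S → A) (γ T : ℝ) (a : A) :
    coef φ γ T a = Pool.Agent.Q285.EQ.coef (fun v : Pl F S => norm v) φ 0 γ T a := by
  unfold coef Pool.Agent.Q285.EQ.coef
  simp only [weight_eq]

theorem two_le (v : Pl F S) : 2 ≤ norm v := two_le_nrm v.1

theorem summ {σ : ℝ} (hσ : 1 < σ) : Summable fun v : Pl F S => norm v ^ (-σ) :=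
  (nrm_summable hσ).subtype _

theorem char_rate [Fintype A] (φ : Pl F S → A) {L : AddChar A ℂ → ℂ → ℂ}
    (hmer : ∀ ψ, ∀ x : ℝ, 0 ≤ x → x ≤ 1 → MeromorphicAt (L ψ) (x : ℂ))
    (hL : ∀ ψ : AddChar A ℂ, ∀ s : ℂ, 1 < s.re →
      HasProd (fun v : Pl F S => (1 - ψ (φ v) * (norm v : ℂ) ^ (-s))⁻¹) (L ψ s))
    (r : ℕ) {c : AddChar A ℂ → ℂ}
    (hc : ∀ ψ, Tendsto (fun s : ℂ => L ψ s / s ^ r) (𝓝[≠] 0) (𝓝 (c ψ)))
    {γ : ℝ} (hγ : Real.pi / 2 < γ) (ψ : AddChar A ℂ) :
    (fun T : ℝ => (T : ℂ) ^ r * Complex.exp (-(r * Lam γ)) * Complex.exp (∑ b, coef φ γ T b * ψ b)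
      - c ψ) =O[atTop] (fun T : ℝ => 1 / T) := by
  have E := Pool.Agent.Q285.EQ.eul_char (q := fun v : Pl F S => norm v) φ two_le
    (fun σ hσ => summ hσ) ψ
  obtain ⟨m, l, h1, h2, h3⟩ := E.lawC (F := L ψ) (s₀ := 0) (by norm_num)
    (fun x hx hx1 => hmer ψ x hx (by linarith))
    (fun s hs => by simpa using hL ψ s (by linarith)) hγ
  have h4 := Pool.Agent.Q285.EQ.taylor_rate (r := r) (c := c ψ) (hmer ψ 0 le_rfl zero_le_one) h1 h2 h3
    (by
      have := hc ψ
      simpa [div_eq_mul_inv] using this)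
  have h5 := h4.const_mul_left (Complex.exp (-(r * Lam γ)))
  refine h5.congr' ?_ EventuallyEq.rfl
  filter_upwards [eventually_gt_atTop 0] with T hT
  have h6 : ∑ b, coef φ γ T b * ψ b = smooth (fun v : Pl F S => norm v)
      (fun v (_ : Fin 1) => ψ (φ v)) 0 γ T := by
    rw [← Pool.Agent.Q285.EQ.sum_coef φ two_le (fun σ hσ => summ hσ) 0 γ hT ψ]
    simp only [coef_eq]
  rw [h6]
  have h7 : Complex.exp (-(r * Lam γ)) * Complex.exp (r * Lam γ) = 1 := by
    rw [← Complex.exp_add, neg_add_cancel, Complex.exp_zero]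
  unfold Lam at h7 ⊢
  rw [Int.cast_natCast, zpow_natCast]
  linear_combination (-c ψ) * h7

/-- the factors of the modification do not vanish near `0` -/
theorem modif_ne [Finite A] (φ : Pl F S → A) (Tm : Finset (Pl F S)) (ψ : AddChar A ℂ) :
    ∏ v ∈ Tm, (1 - ψ (φ v) * (norm v : ℂ)) ≠ 0 := by
  refine Finset.prod_ne_zero_iff.2 fun v _ h => ?_
  have h1 : ψ (φ v) * (norm v : ℂ) = 1 := by linear_combination -h
  have h2 := congrArg (fun z : ℂ => ‖z‖) h1
  simp only [norm_mul, AddChar.norm_apply, one_mul, norm_one, Complex.norm_real, Real.norm_eq_abs] at h2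
  have h3 := two_le v
  rw [abs_of_nonneg (by linarith)] at h2
  linarith

theorem modif_tendsto (φ : Pl F S → A) (Tm : Finset (Pl F S)) (ψ : AddChar A ℂ) :
    Tendsto (modif φ Tm ψ) (𝓝[≠] 0) (𝓝 (∏ v ∈ Tm, (1 - ψ (φ v) * (norm v : ℂ)))) := by
  refine tendsto_finsetProd _ fun v _ => ?_
  have h0 : (norm v : ℂ) ≠ 0 := by
    have := two_le v
    exact_mod_cast (by linarith : norm v ≠ 0)
  have h1 : Continuous fun s : ℂ => 1 - ψ (φ v) * (norm v : ℂ) ^ (1 - s) := by
    refine continuous_const.sub (continuous_const.mul ?_)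
    exact (continuous_const.sub continuous_id).const_cpow (Or.inl h0)
  have h2 := (h1.tendsto 0).mono_left (nhdsWithin_le_nhds (s := {0}ᶜ))
  simpa using h2

end

theorem result {F : Type} [Field F] [NumberField F] (S : Finset (HeightOneSpectrum (𝓞 F)))
    {A : Type} [AddCommGroup A] [Fintype A] (φ : Pl F S → A) (Tm : Finset (Pl F S)) (L : AddChar A ℂ → ℂ → ℂ)
    (hmer : ∀ ψ, ∀ x : ℝ, 0 ≤ x → x ≤ 1 → MeromorphicAt (L ψ) (x : ℂ))
    (hL : ∀ ψ : AddChar A ℂ, ∀ s : ℂ, 1 < s.re →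
      HasProd (fun v : Pl F S => (1 - ψ (φ v) * (norm v : ℂ) ^ (-s))⁻¹) (L ψ s))
    (r : ℕ) (c : AddChar A ℂ → ℂ)
    (hc : ∀ ψ, Tendsto (fun s : ℂ => modif φ Tm ψ s * L ψ s / s ^ r) (𝓝[≠] 0) (𝓝 (c ψ)))
    {γ : ℝ} (hγ : Real.pi / 2 < γ) :
    -- absolute convergence
    (∀ T : ℝ, 0 < T → Summable fun x : Pl F S × ℕ => ‖weight γ T x‖) ∧
    -- the values of `X(T)` at the characters
    (∀ T : ℝ, ∀ χ : AddChar A ℂ, ∑ a, X φ Tm r γ T a * χ a =
      r.factorial * ((∏ v ∈ Tm, (1 - χ (-φ v) * (norm v : ℂ))) *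
        ((T : ℂ) ^ r * Complex.exp (-(r * Lam γ)) * Complex.exp (∑ b, coef φ γ T b * χ (-b))))) ∧
    -- the limit, with rate
    (fun T : ℝ => X φ Tm r γ T - (r.factorial : ℂ) • element c) =O[atTop] (fun T : ℝ => 1 / T) ∧
    -- Stark's inclusion
    ∀ (V : Type) [NormedAddCommGroup V] [NormedSpace ℂ V] [FiniteDimensional ℂ V]
      (act : (A → ℂ) →ₗ[ℂ] V →ₗ[ℂ] V) (M : AddSubgroup V) [DiscreteTopology M] (g : ℕ) (x : Fin g → V),
      ((∀ v ∈ rat (AddSubgroup.closure (Set.range x)), act ((r.factorial : ℂ) • element c) v ∈ rat M) ↔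
        ∃ D : ℕ, 0 < D ∧ ∃ t : ℕ → ℝ, Tendsto t atTop atTop ∧ ∀ j, Tendsto
          (fun i => Metric.infDist (D • act (X φ Tm r γ (t i)) (x j)) (M : Set V)) atTop (𝓝 0)) := by
  have hτ := fun ψ : AddChar A ℂ => modif_ne φ Tm ψ
  have hc' : ∀ ψ, Tendsto (fun s : ℂ => L ψ s / s ^ r) (𝓝[≠] 0)
      (𝓝 (c ψ / ∏ v ∈ Tm, (1 - ψ (φ v) * (norm v : ℂ)))) := by
    intro ψ
    have h1 := (hc ψ).div (modif_tendsto φ Tm ψ) (hτ ψ)
    refine h1.congr' ?_
    filter_upwards [(modif_tendsto φ Tm ψ).eventually_ne (hτ ψ)] with s hs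
    simp only [Pi.div_apply]
    field_simp
  have hch : ∀ ψ : AddChar A ℂ, (fun T : ℝ => (∏ v ∈ Tm, (1 - ψ (φ v) * (norm v : ℂ))) *
      ((T : ℂ) ^ r * Complex.exp (-(r * Lam γ)) * Complex.exp (∑ b, coef φ γ T b * ψ b)) - c ψ) =O[atTop]
        (fun T : ℝ => 1 / T) := by
    intro ψ
    have h1 := (char_rate φ hmer hL r hc' hγ ψ).const_mul_left (∏ v ∈ Tm, (1 - ψ (φ v) * (norm v : ℂ)))
    refine h1.congr (fun T => ?_) fun _ => rfl
    rw [mul_sub, mul_div_cancel₀ _ (hτ ψ)]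
  have hrate : (fun T : ℝ => X φ Tm r γ T - (r.factorial : ℂ) • element c) =O[atTop] (fun T : ℝ => 1 / T) := by
    refine isBigO_pi.2 fun a => ?_
    have h1 : (fun T : ℝ => (r.factorial * (1 / Fintype.card A) : ℂ) * ∑ ψ : AddChar A ℂ,
        (((∏ v ∈ Tm, (1 - ψ (φ v) * (norm v : ℂ))) *
          ((T : ℂ) ^ r * Complex.exp (-(r * Lam γ)) * Complex.exp (∑ b, coef φ γ T b * ψ b)) - c ψ) *
          ψ a)) =O[atTop] (fun T : ℝ => 1 / T) := by
      refine IsBigO.const_mul_left (IsBigO.fun_sum fun ψ _ => ?_) _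
      have := (hch ψ).const_mul_left (ψ a)
      refine this.congr (fun T => ?_) fun _ => rfl
      ring
    refine h1.congr (fun T => ?_) fun _ => rfl
    unfold X element
    simp only [sub_mul, Finset.sum_sub_distrib, mul_sub, Pi.sub_apply, Pi.smul_apply, smul_eq_mul]
    ring
  have hlim : Tendsto (fun T : ℝ => X φ Tm r γ T) atTop (𝓝 ((r.factorial : ℂ) • element c)) := by
    have h1 : Tendsto (fun T : ℝ => X φ Tm r γ T - (r.factorial : ℂ) • element c) atTop (𝓝 0) :=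
      hrate.trans_tendsto (tendsto_const_nhds.div_atTop tendsto_id)
    simpa using h1.add_const ((r.factorial : ℂ) • element c)
  refine ⟨fun T hT => ?_, fun T ψ => ?_, hrate, ?_⟩
  · simp only [weight_eq]
    exact Pool.Agent.Q285.EQ.ker_summable φ two_le (fun σ hσ => summ hσ) 0 γ hT
  · have h0 : (Fintype.card A : ℂ) ≠ 0 := by exact_mod_cast Fintype.card_ne_zero
    unfold X element
    obtain ⟨f, hf⟩ : ∃ f : AddChar A ℂ → ℂ, f = fun ψ => (∏ v ∈ Tm, (1 - ψ (φ v) * (norm v : ℂ))) *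
      ((T : ℂ) ^ r * Complex.exp (-(r * Lam γ)) * Complex.exp (∑ b, coef φ γ T b * ψ b)) := ⟨_, rfl⟩
    have hfψ : (∏ v ∈ Tm, (1 - ψ (-φ v) * (norm v : ℂ))) * ((T : ℂ) ^ r * Complex.exp (-(r * Lam γ)) *
        Complex.exp (∑ b, coef φ γ T b * ψ (-b))) = f ψ⁻¹ := by
      simp only [hf, AddChar.inv_apply]
    rw [hfψ, ← hf]
    have h1 : ∀ χ : AddChar A ℂ, ∑ a, χ a * ψ a = if χ = ψ⁻¹ then (Fintype.card A : ℂ) else 0 := by
      intro χ
      have h2 : ∀ a, χ a * ψ a = (χ * ψ) a := fun a => (AddChar.mul_apply _ _ _).symm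
      simp only [h2]
      rw [AddChar.sum_eq_ite]
      congr 1
      exact propext (eq_inv_iff_mul_eq_one (a := χ) (b := ψ)).symm
    calc ∑ a, ((r.factorial : ℂ) • fun a => 1 / (Fintype.card A : ℂ) * ∑ χ : AddChar A ℂ, f χ * χ a) a * ψ a
        = r.factorial * (1 / (Fintype.card A : ℂ) * ∑ χ : AddChar A ℂ, f χ * ∑ a, χ a * ψ a) := by
          simp only [Pi.smul_apply, smul_eq_mul, Finset.mul_sum, Finset.sum_mul]
          rw [Finset.sum_comm]
          refine Finset.sum_congr rfl fun χ _ => Finset.sum_congr rfl fun a _ => ?_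
          ring
      _ = r.factorial * f ψ⁻¹ := by
          simp only [h1, mul_ite, mul_zero, Finset.sum_ite_eq', Finset.mem_univ, if_true]
          field_simp
  · intro V _ _ _ act M _ g x
    have hcl : IsClosed (M : Set V) := AddSubgroup.isClosed_of_discrete
    have hne : (M : Set V).Nonempty := ⟨0, M.zero_mem⟩
    have hact : ∀ v : V, Tendsto (fun T : ℝ => act (X φ Tm r γ T) v) atTop
        (𝓝 (act ((r.factorial : ℂ) • element c) v)) := by
      intro v
      have h1 : Continuous fun y : A → ℂ => act y v :=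
        ((LinearMap.applyₗ v).comp act : (A → ℂ) →ₗ[ℂ] V).continuous_of_finiteDimensional
      exact (h1.tendsto _).comp hlim
    have key : ∀ (D : ℕ) (v : V), List.TFAE [D • act ((r.factorial : ℂ) • element c) v ∈ (M : Set V),
        Tendsto (fun T : ℝ => Metric.infDist (D • act (X φ Tm r γ T) v) (M : Set V)) atTop (𝓝 0),
        ∃ t : ℕ → ℝ, Tendsto t atTop atTop ∧
          Tendsto (fun i => Metric.infDist (D • act (X φ Tm r γ (t i)) v) (M : Set V)) atTop (𝓝 0)] := fun D v =>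
      closed_tfae hcl hne ((hact v).const_smul D)
    constructor
    · intro h
      have h1 : ∀ j, ∃ n : ℕ, 0 < n ∧ n • act ((r.factorial : ℂ) • element c) (x j) ∈ M := fun j =>
        h (x j) ⟨1, one_pos, by
          rw [one_smul]
          exact AddSubgroup.subset_closure ⟨j, rfl⟩⟩
      choose n hn hnM using h1
      refine ⟨∏ j, n j, Finset.prod_pos fun j _ => hn j, fun i => i, tendsto_natCast_atTop_atTop, fun j => ?_⟩
      have h2 : (∏ j, n j) • act ((r.factorial : ℂ) • element c) (x j) ∈ (M : Set V) := by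
        obtain ⟨e, he⟩ := Finset.dvd_prod_of_mem n (Finset.mem_univ j)
        rw [he, mul_comm, mul_smul]
        exact M.nsmul_mem (hnM j) e
      have h3 : Tendsto (fun T : ℝ => Metric.infDist ((∏ j, n j) • act (X φ Tm r γ T) (x j)) (M : Set V)) atTop (𝓝 0) :=
        ((key _ _).out 0 1).1 h2
      exact h3.comp tendsto_natCast_atTop_atTop
    · rintro ⟨D, hD, t, ht, h⟩ v ⟨n, hn, hv⟩
      have h1 : ∀ j, D • act ((r.factorial : ℂ) • element c) (x j) ∈ M := by
        intro j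
        have hj : ∃ t : ℕ → ℝ, Tendsto t atTop atTop ∧
          Tendsto (fun i => Metric.infDist (D • act (X φ Tm r γ (t i)) (x j)) (M : Set V)) atTop (𝓝 0) :=
          ⟨t, ht, h j⟩
        exact ((key D (x j)).out 0 2).2 hj
      have h2 : ∀ w ∈ AddSubgroup.closure (Set.range x), D • act ((r.factorial : ℂ) • element c) w ∈ M := by
        intro w hw
        induction hw using AddSubgroup.closure_induction with
        | mem w hw => obtain ⟨j, rfl⟩ := hw; exact h1 j
        | zero => rw [map_zero, smul_zero]; exact M.zero_mem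
        | add a b _ _ ha hb => rw [map_add, smul_add]; exact M.add_mem ha hb
        | neg a _ ha => rw [map_neg, smul_neg]; exact M.neg_mem ha
      refine ⟨D * n, Nat.mul_pos hD hn, ?_⟩
      have h3 := h2 _ hv
      rw [map_nsmul] at h3
      rw [mul_smul]
      exact h3

end Pool.Agent.Results.MP_d9bae3_nt.LimitOfFrobeniusExponentials
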